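import Pool.Agent.GRA.StmtsK
import Pool.Agent.Helper64_FR.ORT

/-!
# Row KEQ: the linear equivariant map from `sph`
-/

open MeasureTheory Matrix Finset
open scoped ComplexConjugate

namespace Pool.Agent.GRA.H25

open Pool.Agent.GRA Pool.Agent.Helper64_FR Pool.Agent.UTR Pool.Agent.BSE
open Pool.Agent.Helper64_FR.ORT Pool.Agent.Helper64_FR.FIX

variable {n : ℕ}

/-- the integrand is continuous -/
theorem cont_integrand (σ : URep n) (h : σ.Sp) (l : Fin n) (k : ℕ) (x : σ.Sp)
    (M : Matrix (Fin n) (Fin n) ℂ) :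
    Continuous fun g : UU n => (inner ℂ (σ.op g h) x : ℂ) *
      (star (g : Matrix (Fin n) (Fin n) ℂ) * M * (g : Matrix (Fin n) (Fin n) ℂ)) l l ^ k := by
  have h1 : Continuous fun g : UU n => (inner ℂ (σ.op g h) x : ℂ) :=
    ((continuous_op σ).clm_apply continuous_const).inner continuous_const
  have h2 : Continuous fun g : UU n =>
      (star (g : Matrix (Fin n) (Fin n) ℂ) * M * (g : Matrix (Fin n) (Fin n) ℂ)) :=
    ((continuous_star.comp continuous_subtype_val).matrix_mul continuous_const).matrix_mul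
      continuous_subtype_val
  have h3 : Continuous fun g : UU n =>
      (star (g : Matrix (Fin n) (Fin n) ℂ) * M * (g : Matrix (Fin n) (Fin n) ℂ)) l l :=
    h2.matrix_elem l l
  exact h1.mul (h3.pow k)

/-- the integrand is integrable -/
theorem int_integrand (σ : URep n) (h : σ.Sp) (l : Fin n) (k : ℕ) (x : σ.Sp)
    (M : Matrix (Fin n) (Fin n) ℂ) :
    Integrable (fun g : UU n => (inner ℂ (σ.op g h) x : ℂ) *
      (star (g : Matrix (Fin n) (Fin n) ℂ) * M * (g : Matrix (Fin n) (Fin n) ℂ)) l l ^ k)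
      (haarU n) :=
  (cont_integrand σ h l k x M).integrable_of_hasCompactSupport (HasCompactSupport.of_compactSpace _)

theorem sph_add (σ : URep n) (h : σ.Sp) (l : Fin n) (k : ℕ) (x y : σ.Sp)
    (M : Matrix (Fin n) (Fin n) ℂ) :
    sph σ h l k (x + y) M = sph σ h l k x M + sph σ h l k y M := by
  unfold sph
  rw [← integral_add (int_integrand σ h l k x M) (int_integrand σ h l k y M)]
  congr 1
  ext1 g
  rw [inner_add_right, add_mul]

theorem sph_smul (σ : URep n) (h : σ.Sp) (l : Fin n) (k : ℕ) (c : ℂ) (x : σ.Sp)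
    (M : Matrix (Fin n) (Fin n) ℂ) :
    sph σ h l k (c • x) M = c * sph σ h l k x M := by
  unfold sph
  rw [← integral_const_mul]
  congr 1
  ext1 g
  rw [inner_smul_right, mul_assoc]

/-- equivariance -/
theorem sph_op (σ : URep n) (h : σ.Sp) (l : Fin n) (k : ℕ) (a : UU n) (x : σ.Sp)
    (M : Matrix (Fin n) (Fin n) ℂ) :
    sph σ h l k (σ.op a x) M = sph σ h l k x
      (((a⁻¹ : UU n) : Matrix (Fin n) (Fin n) ℂ) * M * (a : Matrix (Fin n) (Fin n) ℂ)) := by
  unfold sph
  rw [← integral_mul_left_eq_self (μ := haarU n) (fun g : UU n =>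
    (inner ℂ (σ.op g h) (σ.op a x) : ℂ) *
      (star (g : Matrix (Fin n) (Fin n) ℂ) * M * (g : Matrix (Fin n) (Fin n) ℂ)) l l ^ k) a]
  congr 1
  ext1 g
  have e1 : (inner ℂ (σ.op (a * g) h) (σ.op a x) : ℂ) = inner ℂ (σ.op g h) x := by
    have e2 : σ.op (a * g) h = σ.op a (σ.op g h) := by
      rw [op_mul]; rfl
    rw [e2, inner_op_left]
    have e3 : σ.op a⁻¹ (σ.op a x) = x := by
      have : σ.op a⁻¹ * σ.op a = 1 := by
        rw [← op_mul, inv_mul_cancel, op_one]
      exact congrArg (fun S : σ.Sp →L[ℂ] σ.Sp => S x) this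
    rw [e3]
  have e4 : star ((a * g : UU n) : Matrix (Fin n) (Fin n) ℂ) * M *
      ((a * g : UU n) : Matrix (Fin n) (Fin n) ℂ) =
      star (g : Matrix (Fin n) (Fin n) ℂ) * (((a⁻¹ : UU n) : Matrix (Fin n) (Fin n) ℂ) * M *
        (a : Matrix (Fin n) (Fin n) ℂ)) * (g : Matrix (Fin n) (Fin n) ℂ) := by
    have e5 : ((a * g : UU n) : Matrix (Fin n) (Fin n) ℂ) =
      (a : Matrix (Fin n) (Fin n) ℂ) * (g : Matrix (Fin n) (Fin n) ℂ) := rfl
    have e6 : ((a⁻¹ : UU n) : Matrix (Fin n) (Fin n) ℂ) = star (a : Matrix (Fin n) (Fin n) ℂ) := rfl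
    rw [e5, e6, star_mul]
    simp only [Matrix.mul_assoc]
  rw [e1, e4]

/-- **Row KEQ** -/
theorem keq : KEQStmt := by
  intro n σ h l k
  let T : (Fin σ.dim → ℂ) →ₗ[ℂ] (Matrix (Fin n) (Fin n) ℂ → ℂ) :=
    { toFun := fun v M => sph σ h l k (WithLp.toLp 2 v) M
      map_add' := by
        intro v w
        funext M
        rw [WithLp.toLp_add, sph_add]
        rfl
      map_smul' := by
        intro c v
        funext M
        rw [WithLp.toLp_smul, sph_smul]
        rfl }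
  have hT : ∀ v M, T v M = sph σ h l k (WithLp.toLp 2 v) M := fun _ _ => rfl
  have hE : ∀ (g : UU n) (v : Fin σ.dim → ℂ) (M : Matrix (Fin n) (Fin n) ℂ),
      T (σ.mat g *ᵥ v) M = T v (((g⁻¹ : UU n) : Matrix (Fin n) (Fin n) ℂ) * M *
        (g : Matrix (Fin n) (Fin n) ℂ)) := by
    intro g v M
    rw [hT, hT]
    exact sph_op σ h l k g (WithLp.toLp 2 v) M
  refine ⟨T, hT, hE, ?_⟩
  rintro hirr ⟨v, M, hv⟩
  rcases hirr.2 (LinearMap.ker T) (by
    intro g x hx
    rw [LinearMap.mem_ker] at hx ⊢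
    funext M
    rw [hE, hx]
    rfl) with h1 | h1
  · exact LinearMap.ker_eq_bot.mp h1
  · exfalso
    apply hv
    have h2 : T = 0 := LinearMap.ker_eq_top.mp h1
    rw [h2]
    rfl

end Pool.Agent.GRA.H25
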